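import Mathlib
import Pool.Agent.Helper68.PSKey
import Pool.Agent.Helper91.PSTop

/-!
# SOP1 and SOP2 are equivalent for positive theories

Outline of the proof.  Let `φ`, `ψ` witness SOP1 for `T` and suppose that `T` has no SOP2.
Consider finite structures with two binary relations `E`, `R`, read as `φ(x_a, y_b)` and
`ψ(y_a, y_b)`.  The class of those satisfiable in the monster model is closed under preimages
under homomorphisms, contains the finite parts of SOP1 trees, and (as SOP2 fails) is closed under
a gluing rule: if binary trees of all finite depths with `Φ` along the branches and `Ψ` between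
incomparable positions are in the class, then so is the structure `Φ(c,b,d), Φ(c,b',d),
Ψ(b,b',d,w)`.  The combinatorial core (`PosSOP.core`) says that every class with these closure
properties contains the structure `E(x,y), E(x,y'), R(y,y')`, contradicting that `ψ` is a
negation of `∃ x (φ(x,y) ∧ φ(x,y'))`.
-/

namespace Pool.Agent.Results.MP_0ff3ec_lc.SOP1IffSOP2

open FirstOrder FirstOrder.Language PosSOP

universe u v w

/-- `M` is `κ`-saturated (for positive formulas): every set of positive formulas in fewer than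
`κ` variables over fewer than `κ` parameters from `M` which is finitely satisfiable in `M` is
satisfiable in `M`. -/
def IsSaturated (L : FirstOrder.Language.{u, v}) (κ : Cardinal.{w}) (M : Type w)
    [L.Structure M] : Prop :=
  ∀ (I A : Type w), Cardinal.mk I < κ → Cardinal.mk A < κ → ∀ (a : A → M)
    (S : Set (L.Formula (I ⊕ A))), (∀ φ ∈ S, IsPos φ) →
    (∀ S₀ : Set (L.Formula (I ⊕ A)), S₀ ⊆ S → S₀.Finite →
      ∃ x : I → M, ∀ φ ∈ S₀, φ.Realize (Sum.elim x a)) →
    ∃ x : I → M, ∀ φ ∈ S, φ.Realize (Sum.elim x a)

lemma IsSaturated.countably {L : FirstOrder.Language.{u, v}} {κ : Cardinal.{w}}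
    (hκ : Cardinal.aleph0 < κ) {M : Type w} [L.Structure M] (h : IsSaturated L κ M) :
    CountablySaturated L M := by
  intro I A _ _ a S hS hfin
  have hI : Cardinal.mk (ULift.{w} I) < κ :=
    lt_of_le_of_lt (Cardinal.mk_le_aleph0_iff.2 inferInstance) hκ
  have hA : Cardinal.mk (ULift.{w} A) < κ :=
    lt_of_le_of_lt (Cardinal.mk_le_aleph0_iff.2 inferInstance) hκ
  let up : I ⊕ A → ULift.{w} I ⊕ ULift.{w} A := Sum.map ULift.up ULift.up
  have hup : ∀ (x : ULift.{w} I → M) (φ : L.Formula (I ⊕ A)),
      (φ.relabel up).Realize (Sum.elim x (fun b => a b.down)) ↔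
        φ.Realize (Sum.elim (fun i => x (ULift.up i)) a) := by
    intro x φ
    rw [Formula.realize_relabel]
    have : (Sum.elim x fun b => a b.down) ∘ up = Sum.elim (fun i => x (ULift.up i)) a := by
      funext y
      rcases y with y | y <;> rfl
    rw [this]
  obtain ⟨x, hx⟩ := h (ULift.{w} I) (ULift.{w} A) hI hA (fun b => a b.down)
    ((fun φ : L.Formula (I ⊕ A) => φ.relabel up) '' S)
    (by
      rintro _ ⟨φ, hφ, rfl⟩
      exact (hS φ hφ).frelabel up)
    (by
      intro S₀ hS₀ hfin₀
      obtain ⟨S₁, h1, h2, h3⟩ := Set.exists_subset_image_finite_and.1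
        (⟨S₀, hS₀, hfin₀, rfl⟩ : ∃ t ⊆ (fun φ : L.Formula (I ⊕ A) => φ.relabel up) '' S,
          t.Finite ∧ t = S₀)
      obtain ⟨x, hx⟩ := hfin S₁ h1 h2
      refine ⟨fun i => x i.down, ?_⟩
      rw [← h3]
      rintro _ ⟨φ, hφ, rfl⟩
      exact (hup _ φ).2 (hx φ hφ))
  exact ⟨fun i => x (ULift.up i), fun φ hφ => (hup x φ).1 (hx _ ⟨φ, hφ, rfl⟩)⟩

/-- For every positive theory `T` with the joint continuation property, and every existentially
closed model `M` of `T` which is `κ`-saturated for some uncountable `κ` (in particular for a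
monster model), `T` has SOP1 if and only if it has SOP2. -/
theorem result {L : FirstOrder.Language.{u, v}} (T : Set (HInd L)) (hT : JCP.{u, v, w} T)
    (κ : Cardinal.{w}) (hκ : Cardinal.aleph0 < κ) (M : Type w) [L.Structure M] (hM : IsEC T M)
    (hS : IsSaturated L κ M) : HasSOP1 T M ↔ HasSOP2 T M :=
  transfer core T hT M hM (hS.countably hκ)

end Pool.Agent.Results.MP_0ff3ec_lc.SOP1IffSOP2
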